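import Pool.Agent.Q5.SG.Stm

/-!
# Project SG (helper5): job CQ, elements with divisor divisible by `N` outside `𝔮`
(adapted from `Pool/Agent/Y847/LC/CLS.lean`)
-/

set_option autoImplicit false

namespace Pool.Agent.Q24.SG

open Finset NumberField IsDedekindDomain Pool.Agent.Y18.LC Pool.Agent.Q5.SG
open scoped nonZeroDivisors

/-- if the valuations of the nonzero integer `x` outside `𝔮` are divisible by `N`, then `(x)` is the `N`-th
power of an ideal times a power of `𝔮` -/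
theorem span_pow (k : Type) [Field k] [NumberField k] (𝔮 : HeightOneSpectrum (𝓞 k)) (N : ℕ)
    (x : 𝓞 k) (hx : x ≠ 0) (h : ∀ v : HeightOneSpectrum (𝓞 k), v ≠ 𝔮 → ∃ j : ℤ,
      v.valuation k (x : k) = WithZero.exp (N * j)) :
    ∃ (J : Ideal (𝓞 k)) (s : ℕ), Ideal.span {x} = J ^ N * 𝔮.asIdeal ^ s := by
  classical
  have h0 : Ideal.span {x} ≠ (0 : Ideal (𝓞 k)) := by
    simpa using hx
  have hq0 : Associates.mk 𝔮.asIdeal ≠ 0 := Associates.mk_ne_zero.2 𝔮.ne_bot
  have hqi : Irreducible (Associates.mk 𝔮.asIdeal) := 𝔮.associates_irreducible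
  have hx1 : Associates.mk (Ideal.span {x} : Ideal (𝓞 k)) ≠ 0 := Associates.mk_ne_zero.2 h0
  set s := (Associates.mk 𝔮.asIdeal).count (Associates.mk (Ideal.span {x} : Ideal (𝓞 k))).factors
    with hs
  have hdvd : Associates.mk 𝔮.asIdeal ^ s ∣ Associates.mk (Ideal.span {x} : Ideal (𝓞 k)) :=
    (Associates.prime_pow_dvd_iff_le hx1 hqi).2 le_rfl
  rw [← Associates.mk_pow, Associates.mk_dvd_mk] at hdvd
  obtain ⟨I, hI⟩ := hdvd
  have hI0 : I ≠ 0 := by
    rintro rfl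
    rw [mul_zero] at hI
    exact h0 hI
  have hI1 : Associates.mk I ≠ 0 := Associates.mk_ne_zero.2 hI0
  have hqs : Associates.mk (𝔮.asIdeal ^ s) ≠ 0 := Associates.mk_ne_zero.2 (pow_ne_zero _ 𝔮.ne_bot)
  have hcount : ∀ P : Associates (Ideal (𝓞 k)), Irreducible P →
      P.count (Associates.mk (Ideal.span {x} : Ideal (𝓞 k))).factors =
      s * P.count (Associates.mk 𝔮.asIdeal).factors + P.count (Associates.mk I).factors := by
    intro P hP
    rw [hI, ← Associates.mk_mul_mk, Associates.count_mul hqs hI1 hP, Associates.mk_pow,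
      Associates.count_pow hq0 hP]
  obtain ⟨b, hb⟩ := Associates.is_pow_of_dvd_count hI1 (k := N) (by
    intro p hp
    obtain ⟨P, rfl⟩ := Associates.mk_surjective p
    have hP : Irreducible P := Associates.irreducible_mk.1 hp
    have hPp : Prime P := hP.prime
    let v : HeightOneSpectrum (𝓞 k) :=
      ⟨P, Ideal.isPrime_of_prime hPp, hPp.ne_zero⟩
    by_cases hvq : v = 𝔮
    · have h2 : P = 𝔮.asIdeal := by rw [← hvq]
      rw [h2] at hp ⊢
      have h3 := hcount _ hp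
      rw [Associates.count_self hp, ← hs] at h3
      have h4 : (Associates.mk 𝔮.asIdeal).count (Associates.mk I).factors = 0 := by omega
      rw [h4]
      exact dvd_zero _
    · obtain ⟨j, hj⟩ := h v hvq
      have h2 : v.valuation k (x : k) = v.intValuation x := v.valuation_of_algebraMap x
      rw [h2, v.intValuation_if_neg hx] at hj
      have h3 := WithZero.exp_injective hj
      have h4 : (N : ℤ) ∣ (((Associates.mk P).count
          (Associates.mk (Ideal.span {x} : Ideal (𝓞 k))).factors : ℕ) : ℤ) :=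
        ⟨-j, by linarith⟩
      have h5 := hcount _ hp
      have h6 : (Associates.mk P).count (Associates.mk 𝔮.asIdeal).factors = 0 := by
        refine Associates.count_eq_zero_of_ne hp hqi ?_
        intro h7
        apply hvq
        refine HeightOneSpectrum.ext ?_
        rw [Associates.mk_eq_mk_iff_associated, associated_iff_eq] at h7
        exact h7
      rw [h6, mul_zero, zero_add] at h5
      rw [← h5]
      exact Int.natCast_dvd_natCast.1 h4)
  obtain ⟨J, rfl⟩ := Associates.mk_surjective b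
  rw [← Associates.mk_pow, Associates.mk_eq_mk_iff_associated, associated_iff_eq] at hb
  exact ⟨J, s, by rw [hI, hb, mul_comm]⟩

/-- `a` belongs to the ideal class `C` -/
def Clq (k : Type) [Field k] [NumberField k] (𝔮 : HeightOneSpectrum (𝓞 k)) (N : ℕ) (a : kˣ)
    (C : ClassGroup (𝓞 k)) : Prop :=
  ∃ (d x : 𝓞 k) (J : (Ideal (𝓞 k))⁰) (s : ℕ), d ≠ 0 ∧ x ≠ 0 ∧ (x : k) = (a : k) * (d : k) ^ N ∧
    Ideal.span {x} = (J : Ideal (𝓞 k)) ^ N * 𝔮.asIdeal ^ s ∧ ClassGroup.mk0 J = C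

theorem exists_clq (k : Type) [Field k] [NumberField k] (𝔮 : HeightOneSpectrum (𝓞 k)) (N : ℕ)
    (hN : 1 ≤ N) (a : kˣ) (h : ∀ v : HeightOneSpectrum (𝓞 k), v ≠ 𝔮 → ∃ j : ℤ,
      v.valuation k (a : k) = WithZero.exp (N * j)) : ∃ C, Clq k 𝔮 N a C := by
  obtain ⟨⟨n, d⟩, hnd⟩ := IsLocalization.surj (𝓞 k)⁰ (a : k)
  simp only at hnd
  have hd : (d : 𝓞 k) ≠ 0 := nonZeroDivisors.ne_zero d.2
  have hdk : (((d : 𝓞 k)) : k) ≠ 0 := by
    intro h0
    exact hd (by exact_mod_cast h0)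
  have hn : n ≠ 0 := by
    rintro rfl
    rw [map_zero] at hnd
    exact mul_ne_zero a.ne_zero hdk hnd
  have hx : ((n * (d : 𝓞 k) ^ (N - 1) : 𝓞 k) : k) = (a : k) * ((d : 𝓞 k) : k) ^ N := by
    have h1 : N = (N - 1) + 1 := by omega
    have h2 : (n : k) = (a : k) * ((d : 𝓞 k) : k) := hnd.symm
    calc ((n * (d : 𝓞 k) ^ (N - 1) : 𝓞 k) : k) = (n : k) * ((d : 𝓞 k) : k) ^ (N - 1) := by
          push_cast; rfl
      _ = (a : k) * ((d : 𝓞 k) : k) ^ ((N - 1) + 1) := by rw [h2]; ring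
      _ = _ := by rw [← h1]
  have hx0 : n * (d : 𝓞 k) ^ (N - 1) ≠ 0 := mul_ne_zero hn (pow_ne_zero _ hd)
  obtain ⟨J, s, hJ⟩ := span_pow k 𝔮 N (n * (d : 𝓞 k) ^ (N - 1)) hx0 (by
    intro v hv
    obtain ⟨j, hj⟩ := h v hv
    have h5 : v.valuation k (((d : 𝓞 k)) : k) = v.intValuation (d : 𝓞 k) :=
      v.valuation_of_algebraMap _
    rw [v.intValuation_if_neg hd] at h5
    refine ⟨j + -((Associates.mk v.asIdeal).count
      (Associates.mk (Ideal.span {(d : 𝓞 k)} : Ideal (𝓞 k))).factors : ℤ), ?_⟩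
    rw [hx, map_mul, map_pow, hj, h5, ← WithZero.exp_nsmul, ← WithZero.exp_add]
    congr 1
    rw [nsmul_eq_mul]
    ring)
  have hJ0 : J ≠ 0 := by
    rintro rfl
    rw [zero_pow (by omega), zero_mul] at hJ
    exact hx0 (by simpa using hJ)
  exact ⟨ClassGroup.mk0 ⟨J, mem_nonZeroDivisors_of_ne_zero hJ0⟩, d, n * (d : 𝓞 k) ^ (N - 1),
    ⟨J, mem_nonZeroDivisors_of_ne_zero hJ0⟩, s, hd, hx0, hx, hJ, rfl⟩

/-- elements which generate the same ideal up to powers of `𝔮` have the same valuations outside `𝔮` -/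
theorem val_le_of_span (k : Type) [Field k] [NumberField k] {𝔮 v : HeightOneSpectrum (𝓞 k)}
    (hv : v ≠ 𝔮) {x y : 𝓞 k} {s t : ℕ}
    (h : Ideal.span {x} * 𝔮.asIdeal ^ s = Ideal.span {y} * 𝔮.asIdeal ^ t) :
    v.valuation k (x : k) ≤ v.valuation k (y : k) := by
  have hex : ∃ z ∈ 𝔮.asIdeal, z ∉ v.asIdeal := by
    by_contra hcon
    push Not at hcon
    have h1 : 𝔮.asIdeal ≤ v.asIdeal := fun z hz => hcon z hz
    have h2 : 𝔮.asIdeal.IsMaximal := 𝔮.isMaximal
    have h3 := h2.eq_of_le v.isPrime.ne_top h1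
    exact hv (HeightOneSpectrum.ext h3.symm)
  obtain ⟨z, hz, hzv⟩ := hex
  have h1 : x * z ^ s ∈ Ideal.span {y} := by
    have h2 : x * z ^ s ∈ Ideal.span {x} * 𝔮.asIdeal ^ s :=
      Ideal.mul_mem_mul (Ideal.mem_span_singleton_self x) (Ideal.pow_mem_pow hz s)
    rw [h] at h2
    have h5 : Ideal.span {y} * 𝔮.asIdeal ^ t ≤ Ideal.span {y} := Ideal.mul_le_left
    exact h5 h2
  obtain ⟨r, hr⟩ := Ideal.mem_span_singleton.1 h1
  have hz1 : v.valuation k (z : k) = 1 := by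
    have h2 := v.valuation_of_algebraMap (K := k) z
    rw [RingOfIntegers.coe_eq_algebraMap, h2]
    rw [HeightOneSpectrum.intValuation_eq_one_iff]
    exact hzv
  have h3 : (x : k) * (z : k) ^ s = (y : k) * (r : k) := by
    have := congrArg (fun t : 𝓞 k => (t : k)) hr
    push_cast at this
    exact this
  have h4 := congrArg (v.valuation k) h3
  rw [map_mul, map_mul, map_pow, hz1, one_pow, mul_one] at h4
  rw [h4]
  exact mul_le_of_le_one_right' (v.valuation_le_one r)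

theorem clq_same (k : Type) [Field k] [NumberField k] (𝔮 : HeightOneSpectrum (𝓞 k)) (N : ℕ)
    (a t : kˣ) (C : ClassGroup (𝓞 k)) (ha : Clq k 𝔮 N a C) (ht : Clq k 𝔮 N t C) :
    ∃ η ∈ QU 𝔮, ∃ b : kˣ, a = t * η * b ^ N := by
  obtain ⟨d, x, J, s, hd, hx, hxa, hJ, hC⟩ := ha
  obtain ⟨d', x', J', s', hd', hx', hxt, hJ', hC'⟩ := ht
  rw [← hC', ClassGroup.mk0_eq_mk0_iff] at hC
  obtain ⟨u, w, hu, hw, he⟩ := hC
  have h1 : Ideal.span {u ^ N * x} * 𝔮.asIdeal ^ s' = Ideal.span {w ^ N * x'} * 𝔮.asIdeal ^ s := by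
    rw [← Ideal.span_singleton_mul_span_singleton, ← Ideal.span_singleton_mul_span_singleton,
      ← Ideal.span_singleton_pow, ← Ideal.span_singleton_pow, hJ, hJ']
    calc Ideal.span {u} ^ N * ((J : Ideal (𝓞 k)) ^ N * 𝔮.asIdeal ^ s) * 𝔮.asIdeal ^ s'
        = (Ideal.span {u} * (J : Ideal (𝓞 k))) ^ N * (𝔮.asIdeal ^ s * 𝔮.asIdeal ^ s') := by
          rw [mul_pow]; ring
      _ = (Ideal.span {w} * (J' : Ideal (𝓞 k))) ^ N * (𝔮.asIdeal ^ s * 𝔮.asIdeal ^ s') := by
          rw [he]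
      _ = _ := by rw [mul_pow]; ring
  have cz : ∀ z : 𝓞 k, z ≠ 0 → (z : k) ≠ 0 := fun z hz h0 => hz (by exact_mod_cast h0)
  have hA : ((u ^ N * x : 𝓞 k) : k) ≠ 0 := cz _ (mul_ne_zero (pow_ne_zero _ hu) hx)
  have hB : ((w ^ N * x' : 𝓞 k) : k) ≠ 0 := cz _ (mul_ne_zero (pow_ne_zero _ hw) hx')
  have hb : ((d' : k) * (w : k) / ((u : k) * (d : k))) ≠ 0 :=
    div_ne_zero (mul_ne_zero (cz _ hd') (cz _ hw)) (mul_ne_zero (cz _ hu) (cz _ hd))
  refine ⟨Units.mk0 _ (div_ne_zero hA hB), ?_, Units.mk0 _ hb, ?_⟩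
  · rw [mem_QU]
    intro v hv
    rw [Units.val_mk0, map_div₀]
    have h2 := val_le_of_span k hv h1
    have h3 := val_le_of_span k hv h1.symm
    rw [le_antisymm h2 h3]
    exact div_self ((Valuation.ne_zero_iff _).2 hB)
  · ext
    rw [Units.val_mul, Units.val_mul, Units.val_pow_eq_pow_val, Units.val_mk0, Units.val_mk0]
    have hu' := cz _ hu
    have hw' := cz _ hw
    have hd1 := cz _ hd
    have hd2 := cz _ hd'
    have ht0 : (t : k) ≠ 0 := t.ne_zero
    have e1 : ((u ^ N * x : 𝓞 k) : k) = (u : k) ^ N * ((a : k) * (d : k) ^ N) := by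
      rw [← hxa]; push_cast; rfl
    have e2 : ((w ^ N * x' : 𝓞 k) : k) = (w : k) ^ N * ((t : k) * (d' : k) ^ N) := by
      rw [← hxt]; push_cast; rfl
    rw [e1, e2, div_pow, mul_pow, mul_pow]
    field_simp

theorem t_CQ : S_CQ := by
  intro k _ _ 𝔮 N hN
  classical
  let f : ClassGroup (𝓞 k) → kˣ := fun C => if h : ∃ a, Clq k 𝔮 N a C then h.choose else 1
  refine ⟨Finset.univ.image f, ?_, ?_⟩
  · rw [Nat.card_eq_fintype_card]
    exact Finset.card_image_le.trans (by simp)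
  · intro a ha
    obtain ⟨C, hC⟩ := exists_clq k 𝔮 N hN a ha
    have hex : ∃ a, Clq k 𝔮 N a C := ⟨a, hC⟩
    have hf : Clq k 𝔮 N (f C) C := by
      have : f C = hex.choose := by simp only [f, dif_pos hex]
      rw [this]
      exact hex.choose_spec
    exact ⟨f C, Finset.mem_image.2 ⟨C, Finset.mem_univ _, rfl⟩, clq_same k 𝔮 N a (f C) C hC hf⟩

end Pool.Agent.Q24.SG
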