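import Pool.Agent.Q5.SG.Stm

/-!
# Project SG (helper5): jobs DV and UH
-/

set_option autoImplicit false

namespace Pool.Agent.Q24.SG

open NumberField IsDedekindDomain Module Pool.Agent.Y18.LC
open Pool.Agent.Q92.AR (Unramified sum_rdeg)
open Pool.Agent.Q5.BR (above mem_above)

section
variable {K H : Type} [Field K] [NumberField K] [Field H] [NumberField H] [Algebra K H]

theorem exists_above {v : HeightOneSpectrum (𝓞 K)} (hv : Unramified H v) :
    ∃ w : HeightOneSpectrum (𝓞 H), w.under (𝓞 K) = v := by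
  have h1 := sum_rdeg (F := H) hv
  have h2 : 0 < Module.finrank K H := Module.finrank_pos
  have h3 : (above H v).Nonempty := by
    rw [Finset.nonempty_iff_ne_empty]
    intro h0
    rw [h0, Finset.sum_empty] at h1
    omega
  obtain ⟨w, hw⟩ := h3
  exact ⟨w, mem_above.1 hw⟩

theorem val_above {v : HeightOneSpectrum (𝓞 K)} (hv : Unramified H v)
    {w : HeightOneSpectrum (𝓞 H)} (hw : w.under (𝓞 K) = v) (x : K) :
    w.valuation H (algebraMap K H x) = v.valuation K x := by
  have hlo : w.asIdeal.LiesOver v.asIdeal := ⟨by rw [← hw]; rfl⟩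
  have he : Ideal.ramificationIdx' v.asIdeal w.asIdeal = 1 := by
    refine Ideal.ramificationIdx'_spec ?_ ?_
    · rw [pow_one, Ideal.map_le_iff_le_comap]
      exact hlo.over.le
    · exact hv w hw
  have h1 := HeightOneSpectrum.valuation_liesOver (K := K) H v w x
  rw [he, pow_one] at h1
  exact h1.symm

end

theorem t_DV : Pool.Agent.Q5.SG.S_DV := by
  intro K H _ _ _ _ _ v hv u hu a c N h
  obtain ⟨w, hw⟩ := exists_above hv
  have h1 : w.valuation H (algebraMap K H a) * w.valuation H (c : H) ^ N = 1 := by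
    rw [← val_EU w hu, ← h]
    simp
  have hc0 : w.valuation H (c : H) ≠ 0 := (Valuation.ne_zero_iff _).2 c.ne_zero
  refine ⟨-WithZero.log (w.valuation H (c : H)), ?_⟩
  rw [val_above hv hw] at h1
  have h2 : w.valuation H (c : H) ^ N =
      WithZero.exp ((N : ℤ) * WithZero.log (w.valuation H (c : H))) := by
    conv_lhs => rw [← WithZero.exp_log hc0]
    rw [← WithZero.exp_nsmul]
    simp
  rw [h2] at h1
  rw [mul_neg, WithZero.exp_neg]
  exact eq_inv_of_mul_eq_one_left h1

/-- if `(p)` is radical in `𝓞 K` then `p` has order one at the primes above `p` -/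
theorem val_rad {K : Type} [Field K] [NumberField K] {p : ℕ} (hp : p ≠ 0) (h : Unram K p)
    (v : HeightOneSpectrum (𝓞 K)) (hv : (p : 𝓞 K) ∈ v.asIdeal) :
    v.valuation K (p : K) = WithZero.exp (-1 : ℤ) := by
  have hp0 : (p : 𝓞 K) ≠ 0 := by exact_mod_cast hp
  have h0 : v.valuation K (p : K) = v.intValuation (p : 𝓞 K) := by
    have h := v.valuation_of_algebraMap (K := K) (p : 𝓞 K)
    exact h
  rw [h0]
  have h1 : v.intValuation (p : 𝓞 K) ≤ WithZero.exp (-1 : ℤ) := by
    have := (v.intValuation_le_pow_iff_mem (p : 𝓞 K) 1).2 (by rwa [pow_one])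
    exact_mod_cast this
  refine le_antisymm h1 ?_
  by_contra hlt
  push Not at hlt
  have h2 : (p : 𝓞 K) ∈ v.asIdeal ^ 2 := by
    rw [← v.intValuation_le_pow_iff_mem]
    have h3 : v.intValuation (p : 𝓞 K) ≠ 0 := v.intValuation_ne_zero _ hp0
    rw [← WithZero.exp_log h3, WithZero.exp_lt_exp] at hlt
    rw [← WithZero.exp_log h3, WithZero.exp_le_exp]
    push_cast
    omega
  -- `(p) = v ^ 2 I`
  have h4 : v.asIdeal ^ 2 ∣ Ideal.span {(p : 𝓞 K)} := by
    rw [Ideal.dvd_span_singleton]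
    exact h2
  obtain ⟨I, hI⟩ := h4
  have hI0 : I ≠ ⊥ := by
    rintro rfl
    rw [Ideal.mul_bot, Ideal.span_singleton_eq_bot] at hI
    exact hp0 hI
  have h5 : v.asIdeal * I ≤ Ideal.span {(p : 𝓞 K)} := by
    intro x hx
    apply h
    refine ⟨2, ?_⟩
    rw [hI]
    have h6 : x ^ 2 ∈ (v.asIdeal * I) ^ 2 := Ideal.pow_mem_pow hx 2
    have h7 : (v.asIdeal * I) ^ 2 ≤ v.asIdeal ^ 2 * I := by
      rw [mul_pow]
      exact Ideal.mul_mono_right (by rw [sq]; exact Ideal.mul_le_left)
    exact h7 h6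
  rw [hI, sq, mul_assoc, ← Ideal.dvd_iff_le] at h5
  obtain ⟨J, hJ⟩ := h5
  have h8 : v.asIdeal * I ≠ 0 := mul_ne_zero v.ne_bot hI0
  have h9 : v.asIdeal * J = 1 := by
    have h10 : (v.asIdeal * I) * (v.asIdeal * J) = (v.asIdeal * I) * 1 := by
      rw [mul_one]
      conv_rhs => rw [hJ]
      ring
    exact mul_left_cancel₀ h8 h10
  have h11 : IsUnit v.asIdeal := IsUnit.of_mul_eq_one _ h9
  rw [Ideal.isUnit_iff] at h11
  exact v.isPrime.ne_top h11

theorem t_UH : Pool.Agent.Q5.SG.S_UH := by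
  intro p hp K H _ _ _ _ _ hK hun
  have hp0 : p ≠ 0 := hp.out.ne_zero
  intro x hx
  obtain ⟨n, hn⟩ := hx
  have hpH : (p : H) ≠ 0 := by exact_mod_cast hp0
  have key : ∀ w : HeightOneSpectrum (𝓞 H), w.valuation H ((x : H) / (p : H)) ≤ 1 := by
    intro w
    have hpw : w.valuation H (p : H) ≠ 0 := (Valuation.ne_zero_iff _).2 hpH
    rw [map_div₀]
    rw [div_le_one₀ (zero_lt_iff.2 hpw)]
    have hpi : w.valuation H (p : H) = w.intValuation (p : 𝓞 H) := by
      have h := w.valuation_of_algebraMap (K := H) (p : 𝓞 H)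
      exact h
    by_cases hw : (p : 𝓞 H) ∈ w.asIdeal
    · -- above `p`
      have hxw : x ∈ w.asIdeal := by
        refine w.isPrime.mem_of_pow_mem n ?_
        have h1 : Ideal.span {(p : 𝓞 H)} ≤ w.asIdeal := by
          rw [Ideal.span_singleton_le_iff_mem]
          exact hw
        exact h1 hn
      have hv : (p : 𝓞 K) ∈ (w.under (𝓞 K)).asIdeal := by
        show algebraMap (𝓞 K) (𝓞 H) (p : 𝓞 K) ∈ w.asIdeal
        rw [map_natCast]
        exact hw
      have h2 := val_above (hun _ hv) (w := w) rfl (p : K)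
      rw [map_natCast, val_rad hp0 hK _ hv] at h2
      rw [h2]
      have h3 := (w.intValuation_le_pow_iff_mem x 1).2 (by rwa [pow_one])
      rw [RingOfIntegers.coe_eq_algebraMap, w.valuation_of_algebraMap]
      exact_mod_cast h3
    · have h1 : w.intValuation (p : 𝓞 H) = 1 := by
        rw [HeightOneSpectrum.intValuation_eq_one_iff]
        exact hw
      rw [hpi, h1, RingOfIntegers.coe_eq_algebraMap]
      exact w.valuation_le_one x
  obtain ⟨y, hy⟩ := HeightOneSpectrum.mem_integers_of_valuation_le_one H ((x : H) / (p : H)) key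
  rw [Ideal.mem_span_singleton]
  refine ⟨y, ?_⟩
  apply (FaithfulSMul.algebraMap_injective (𝓞 H) H)
  rw [map_mul, map_natCast, hy]
  rw [RingOfIntegers.coe_eq_algebraMap]
  field_simp

end Pool.Agent.Q24.SG
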